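import Pool.Agent.H31.Wij

open Pool.Agent.H31.Wij

universe u

theorem Pool.Agent.Results.MP_491d6e_gt.Main.result :
    ∀ (X : Type u) [MetricSpace X] [TopologicalSpace.IsCompletelyMetrizableSpace X],
      StronglyAlphaFavorable (CL X) :=
  fun _ _ _ => saf
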